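import Pool.Agent.Helper22.TW.Stmts

/-! # Module RTE -/

set_option autoImplicit false

namespace Pool.Agent.Helper22.TW

open Pool.Agent.Helper14.BSC Polynomial

section

theorem rte_eN_inj {F k Ω : Type} [Field F] [Field k] [Field Ω] [Algebra F k] [Algebra k Ω]
    {t : k} (hG : Gen F k t) (D : Sec k Ω) {e : Fin 3 → F[X]} (he : Function.Injective e) :
    Function.Injective (eN D ∅ t e) := by
  intro i j hij
  have h1 : aeval t (e i) = aeval t (e j) := (algebraMap k (LL D)).injective hij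
  exact he (transcendental_iff_injective.1 hG.1 h1)

theorem rte_mem {k Ω : Type} [Field k] [Field Ω] [Algebra k Ω] (D : Sec k Ω) (x : Ω) :
    x ∈ NN D ∅ ↔ ∀ g, D.s g x = x := by
  rw [mem_NN]
  constructor
  · intro h g
    exact h g (by rw [mem_Stab]; intro a ha; exact absurd ha (Set.notMem_empty a))
  · intro h g _
    exact h g

/-- a fixed element which is algebraic over `k` is in `k` -/
theorem rte_const (hB : ST_BOT) {k Ω : Type} [Field k] [Field Ω] [Algebra k Ω] [CharZero k]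
    [IsAlgClosed Ω] (D : Sec k Ω) (x : LL D) (h : IsAlgebraic k (x : Ω)) :
    ∃ c : k, x = algebraMap k (LL D) c := by
  have hx : (x : Ω) ∈ Acl k Ω := (mem_algebraicClosure_iff' (F := k) (E := Ω)).2 h.isIntegral
  have h1 : (⟨(x : Ω), hx⟩ : Acl k Ω) ∈ FF (∅ : Set (Acl k Ω)) := by
    rw [mem_FF]
    intro g _
    have h2 := (rte_mem D x).1 x.2 g
    have h3 := D.ext g ⟨(x : Ω), hx⟩
    apply Subtype.ext
    rw [← h3]
    exact h2
  obtain ⟨c, hc⟩ := hB k Ω _ h1
  refine ⟨c, ?_⟩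
  apply Subtype.ext
  have := congrArg (fun a : Acl k Ω => (a : Ω)) hc
  exact this

/-- the equation of the double -/
theorem rte_double {M : Type} [Field M] [CharZero M] {e : Fin 3 → M} {x y f : M}
    (h : Eqn e x y) (hy : y ≠ 0)
    (hf : f = (((x - e 0) * (x - e 1) + (x - e 0) * (x - e 2) + (x - e 1) * (x - e 2))
      / (2 * y)) ^ 2 + (e 0 + e 1 + e 2) - 2 * x) :
    4 * y ^ 2 * (f - e 0) = ((x - e 0) ^ 2 - (e 0 - e 1) * (e 0 - e 2)) ^ 2 := by
  unfold Eqn at h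
  have h1 : 4 * y ^ 2 * (((x - e 0) * (x - e 1) + (x - e 0) * (x - e 2) + (x - e 1) * (x - e 2))
      / (2 * y)) ^ 2 = ((x - e 0) * (x - e 1) + (x - e 0) * (x - e 2)
      + (x - e 1) * (x - e 2)) ^ 2 := by
    rw [div_pow, mul_pow]
    field_simp
    ring
  rw [hf]
  linear_combination h1 + (4 * (e 1 + e 2 - 2 * x)) * h

/-- the `x`-coordinate of the double is not constant -/
theorem rte_nonconst (hB : ST_BOT) {k Ω : Type} [Field k] [Field Ω] [Algebra k Ω] [CharZero k]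
    [IsAlgClosed Ω] (D : Sec k Ω) (a : Fin 3 → k) (x y f : LL D)
    (hx : ∀ c : k, x ≠ algebraMap k (LL D) c)
    (h : Eqn (fun i => algebraMap k (LL D) (a i)) x y)
    (hf : 4 * y ^ 2 * (f - algebraMap k (LL D) (a 0)) = ((x - algebraMap k (LL D) (a 0)) ^ 2 -
      (algebraMap k (LL D) (a 0) - algebraMap k (LL D) (a 1)) *
      (algebraMap k (LL D) (a 0) - algebraMap k (LL D) (a 2))) ^ 2) :
    ∀ c : k, f ≠ algebraMap k (LL D) c := by
  intro c hc
  set b3 : k := -4 * a 0 - 4 * (c - a 0) with hb3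
  set b2 : k := 6 * a 0 ^ 2 - 2 * ((a 0 - a 1) * (a 0 - a 2)) + 4 * (c - a 0) * (a 0 + a 1 + a 2)
    with hb2
  set b1 : k := -4 * a 0 ^ 3 + 4 * a 0 * ((a 0 - a 1) * (a 0 - a 2)) -
    4 * (c - a 0) * (a 0 * a 1 + a 0 * a 2 + a 1 * a 2) with hb1
  set b0 : k := (a 0 ^ 2 - (a 0 - a 1) * (a 0 - a 2)) ^ 2 + 4 * (c - a 0) * (a 0 * a 1 * a 2)
    with hb0
  have hmon : (X ^ 4 + (C b3 * X ^ 3 + C b2 * X ^ 2 + C b1 * X + C b0) : k[X]).Monic := by
    apply monic_X_pow_add
    refine lt_of_le_of_lt degree_cubic_le ?_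
    norm_num
  have halg : IsAlgebraic k x := by
    refine ⟨_, hmon.ne_zero, ?_⟩
    unfold Eqn at h
    simp only [map_add, map_mul, map_pow, aeval_X, aeval_C]
    rw [hc] at hf
    simp only [hb3, hb2, hb1, hb0, map_add, map_sub, map_mul, map_pow, map_neg, map_ofNat]
    linear_combination (4 * (algebraMap k (LL D) c - algebraMap k (LL D) (a 0))) * h - hf
  have halg2 : IsAlgebraic k (x : Ω) := by
    obtain ⟨q, hq0, hq⟩ := halg
    refine ⟨q, hq0, ?_⟩
    have h9 := congrArg (fun z : LL D => (z : Ω)) hq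
    have h10 : aeval (x : Ω) q = ((aeval x q : LL D) : Ω) :=
      aeval_algHom_apply (NN D ∅).val x q
    rw [h10]
    exact h9
  obtain ⟨c', hc'⟩ := rte_const hB D x halg2
  exact hx c' hc'

/-- the inclusion of the fixed fields for a base change -/
noncomputable def rte_J {F k Ω : Type} [Field F] [Field k] [Field Ω] [Algebra F Ω] [Algebra k Ω]
    {t : k} {D : Sec k Ω} (B : Ext (F := F) t D) : LL D →+* LL B.D' where
  toFun x := ⟨(x : Ω), (rte_mem B.D' x).2 (B.fix x ((rte_mem D x).1 x.2))⟩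
  map_one' := rfl
  map_mul' _ _ := rfl
  map_zero' := rfl
  map_add' _ _ := rfl

theorem rte_J_coe {F k Ω : Type} [Field F] [Field k] [Field Ω] [Algebra F Ω] [Algebra k Ω]
    {t : k} {D : Sec k Ω} (B : Ext (F := F) t D) (x : LL D) : ((rte_J B x : LL B.D') : Ω) = x :=
  rfl

theorem rte_e {F k Ω : Type} [Field F] [Field k] [Field Ω] [Algebra F k] [Algebra F Ω]
    [Algebra k Ω] [IsScalarTower F k Ω] {t : k} {D : Sec k Ω} (B : Ext (F := F) t D)
    (e : Fin 3 → F[X]) (i : Fin 3) :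
    eN B.D' ∅ B.t' (fun i => (e i).map B.i) i = rte_J B (eN D ∅ t e i) := by
  apply Subtype.ext
  rw [rte_J_coe]
  change algebraMap B.k' Ω (aeval B.t' ((e i).map B.i)) = algebraMap k Ω (aeval t (e i))
  have h1 : algebraMap B.k' Ω B.t' = algebraMap k Ω t := by
    rw [← B.ht, B.hj]
  have h2 : (algebraMap B.F' Ω).comp B.i = algebraMap F Ω := RingHom.ext B.hi
  rw [← aeval_algebraMap_apply, ← aeval_algebraMap_apply, h1, aeval_def, aeval_def, eval₂_map, h2]

theorem rte_oddDeg {F F' : Type} [Field F] [Field F'] (i : F →+* F') {e : Fin 3 → F[X]}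
    (h : OddDeg e) : OddDeg (fun l => (e l).map i) := by
  obtain ⟨a, b, hab, h1, h2⟩ := h
  have key : ∀ a' b' : Fin 3, ((e b').map i - (e a').map i).natDegree
      = (e b' - e a').natDegree := by
    intro a' b'
    rw [← Polynomial.map_sub, natDegree_map]
  refine ⟨a, b, hab, ?_, ?_⟩
  · simp only [key]
    exact h1
  · intro a' b'
    simp only [key]
    exact h2 a' b'

theorem rte_infDiv {G G' : Type} [AddCommGroup G] [AddCommGroup G'] (Φ : G →+ G') {P : G}
    (h : InfDiv P) : InfDiv (Φ P) := by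
  intro m
  obtain ⟨Q, hQ⟩ := h m
  exact ⟨Φ Q, by rw [← map_nsmul, hQ]⟩

/-- the last step -/
theorem rte_root {k Ω : Type} [Field k] [Field Ω] [Algebra k Ω] [CharZero k] (D : Sec k Ω)
    (a : Fin 3 → k) (x y f : LL D) (h : Eqn (fun i => algebraMap k (LL D) (a i)) x y)
    (hf : 4 * y ^ 2 * (f - algebraMap k (LL D) (a 0)) = ((x - algebraMap k (LL D) (a 0)) ^ 2 -
      (algebraMap k (LL D) (a 0) - algebraMap k (LL D) (a 1)) *
      (algebraMap k (LL D) (a 0) - algebraMap k (LL D) (a 2))) ^ 2)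
    (hall : ∀ (p : ℕ) [Fact p.Prime] (σ : k →+* ℂ_[p]), FinI σ → ∀ P : Place D p σ, f ∉ P.C) :
    RootFin D x (∏ i, (X - C (a i))) := by
  intro p _ σ hσ P hx
  obtain ⟨h0, e0⟩ := P.base (a 0)
  obtain ⟨h1, e1⟩ := P.base (a 1)
  obtain ⟨h2, e2⟩ := P.base (a 2)
  unfold Eqn at h
  simp only at h
  have hy2 : y ^ 2 ∈ P.C := by
    rw [h]
    exact mul_mem (mul_mem (sub_mem hx h0) (sub_mem hx h1)) (sub_mem hx h2)
  have hy : y ∈ P.C := by
    rcases P.C.mem_or_inv_mem y with h3 | h3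
    · exact h3
    · by_cases hy0 : y = 0
      · rw [hy0]; exact zero_mem _
      · have : y = y ^ 2 * y⁻¹ := by field_simp
        rw [this]
        exact mul_mem hy2 h3
  have hφy : P.φ ⟨y, hy⟩ = 0 := by
    by_contra hne
    have h3 : ¬ ((y : LL D) = 0 ∨ (y : LL D)⁻¹ ∉ P.C) := fun h' => hne ((P.ker ⟨y, hy⟩).2 h')
    push Not at h3
    obtain ⟨hy0, hyi⟩ := h3
    obtain ⟨h4, -⟩ := P.base ((2 : k)⁻¹)
    have h5 : algebraMap k (LL D) ((2 : k)⁻¹) = (2 : LL D)⁻¹ := by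
      rw [map_inv₀, map_ofNat]
    rw [h5] at h4
    have h2ne : (2 : LL D) ≠ 0 := by
      have : algebraMap k (LL D) 2 ≠ 0 := by
        rw [Ne, map_eq_zero]
        exact two_ne_zero
      rwa [map_ofNat] at this
    have h6 : f = algebraMap k (LL D) (a 0) + (((x - algebraMap k (LL D) (a 0)) ^ 2 -
      (algebraMap k (LL D) (a 0) - algebraMap k (LL D) (a 1)) *
      (algebraMap k (LL D) (a 0) - algebraMap k (LL D) (a 2))) * (2 : LL D)⁻¹ * y⁻¹) ^ 2 := by
      rw [mul_pow, mul_pow, ← hf]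
      field_simp
      ring
    apply hall p σ hσ P
    rw [h6]
    exact add_mem h0 (pow_mem (mul_mem (mul_mem (sub_mem (pow_mem (sub_mem hx h0) 2)
      (mul_mem (sub_mem h0 h1) (sub_mem h0 h2))) h4) hyi) 2)
  have h7 : (⟨y, hy⟩ : P.C) ^ 2 = ((⟨x, hx⟩ : P.C) - ⟨_, h0⟩) * (⟨x, hx⟩ - ⟨_, h1⟩)
      * (⟨x, hx⟩ - ⟨_, h2⟩) := Subtype.ext h
  have h8 := congrArg P.φ h7
  rw [map_pow, hφy, map_mul, map_mul, map_sub, map_sub, map_sub, e0, e1, e2] at h8
  rw [Polynomial.map_prod, eval_prod, Fin.prod_univ_three]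
  simp only [Polynomial.map_sub, map_X, map_C, eval_sub, eval_X, eval_C]
  rw [← h8]
  ring

end

theorem st_RTE (hB : ST_BOT) (hGRP : ST_GRP) (hMAPP : ST_MAPP) (hBC : ST_BC) (hTWO : ST_TWO)
    (hCCL : ST_CCL) (hALLP : ST_ALLP) : ST_RTE := by
  intro F k Ω _ _ _ _ _ _ _ _ _ _ _ t hG hfg D e he hodd hcls x y hx hxy
  have heN := rte_eN_inj hG D he
  have hCL : CharZero (LL D) := charZero_of_injective_algebraMap (algebraMap k (LL D)).injective
  have hy : y ≠ 0 := by
    intro h0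
    unfold Eqn at hxy
    rw [h0] at hxy
    have h1 : (x - eN D ∅ t e 0) * (x - eN D ∅ t e 1) * (x - eN D ∅ t e 2) = 0 := by
      rw [← hxy]; ring
    rcases mul_eq_zero.1 h1 with h2 | h2
    · rcases mul_eq_zero.1 h2 with h3 | h3
      · exact hx _ (sub_eq_zero.1 h3)
      · exact hx _ (sub_eq_zero.1 h3)
    · exact hx _ (sub_eq_zero.1 h2)
  obtain ⟨f, y1, h3, hadd, hf, -⟩ := EE.add_self heN hxy hy
  have hdbl := rte_double hxy hy hf
  have hfne : ∀ c : k, f ≠ algebraMap k (LL D) c :=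
    rte_nonconst hB D (fun i => aeval t (e i)) x y f hx hxy hdbl
  have hinf : InfDiv (EE.pt heN f y1 h3) := by
    rw [← hadd]
    exact hGRP F k Ω t D e hG he hcls _
  have hbase : ∀ v : Ω, IsAlgebraic F v → ∃ B : Ext (F := F) t D,
      (∃ v' : B.F', algebraMap B.F' Ω v' = v) ∧ InfAt (F := B.F') B.D' 2 (f : Ω) := by
    intro v hv
    obtain ⟨B, hB1, -⟩ := hBC F k Ω t hG hfg D {v} (by simpa using hv)
    refine ⟨B, hB1 v (Finset.mem_singleton_self v), ?_⟩
    have hCL' : CharZero (LL B.D') :=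
      charZero_of_injective_algebraMap (algebraMap B.k' (LL B.D')).injective
    have he' : Function.Injective (fun i => (e i).map B.i) :=
      fun i j hij => he (Polynomial.map_injective B.i B.i.injective hij)
    have heN' := rte_eN_inj B.gen B.D' he'
    obtain ⟨Φ, hΦ⟩ := hMAPP (LL D) (LL B.D') (rte_J B) (eN D ∅ t e) heN
      (eN B.D' ∅ B.t' (fun i => (e i).map B.i)) heN' (fun i => rte_e B e i)
    obtain ⟨h', hΦ'⟩ := hΦ f y1 h3
    have hinf' : InfDiv (EE.pt heN' (rte_J B f) (rte_J B y1) h') := by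
      rw [← hΦ']
      exact rte_infDiv Φ hinf
    intro σ E hE hσE hdense P f' hf'
    have h4 : f' = rte_J B f := Subtype.ext hf'
    rw [h4]
    exact hTWO B.F' B.k' Ω B.t' B.gen B.fg B.D' (fun i => (e i).map B.i) he'
      (rte_oddDeg B.i hodd) heN' (rte_J B f) (rte_J B y1) h' hinf' σ E hE hσE hdense P
  have hccl := hCCL F k Ω t hG hfg D 2 f hfne hbase
  have hallp : ∀ (p : ℕ) [Fact p.Prime] (σ : k →+* ℂ_[p]), FinI σ → ∀ P : Place D p σ, f ∉ P.C :=
    fun p _ σ hσ P => hALLP F k Ω t hG hfg D f hfne hccl p σ hσ P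
  exact rte_root D (fun i => aeval t (e i)) x y f hxy hdbl hallp

end Pool.Agent.Helper22.TW
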